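import Pool.Agent.helper36.HK.Spec

set_option autoImplicit false

open Finset
open Pool.Agent.FI

noncomputable section

namespace Pool.Agent.HK

theorem RIN_mem {u : ℕ} {z : ℤ × ℤ} (h : z ∈ FF u) : Fd z ∧ nn z ≤ u := by
  classical
  unfold FF at h
  exact (Finset.mem_filter.1 h).2

theorem RIN_div (p : ℕ) (hp : p.Prime) (h8 : p % 8 = 3 ∨ p % 8 = 5) (z : ℤ × ℤ)
    (h : (p : ℤ) ∣ N8 z) : (p : ℤ) ∣ z.1 ∧ (p : ℤ) ∣ z.2 := by
  have := Fact.mk hp
  have hp2 : p ≠ 2 := by omega
  have hpi : Prime (p : ℤ) := Nat.prime_iff_prime_int.1 hp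
  have h2 : (p : ℤ) ∣ z.2 := by
    by_contra hn
    have e1 : ((z.2 : ℤ) : ZMod p) ≠ 0 := fun h0 => hn ((ZMod.intCast_zmod_eq_zero_iff_dvd _ _).1 h0)
    have e2 : ((N8 z : ℤ) : ZMod p) = 0 := (ZMod.intCast_zmod_eq_zero_iff_dvd _ _).2 h
    unfold N8 at e2
    push_cast at e2
    have e3 : (2 : ZMod p) ≠ 0 := by
      intro h0
      have : ((2 : ℕ) : ZMod p) = 0 := by exact_mod_cast h0
      rw [ZMod.natCast_eq_zero_iff] at this
      have h3 := (Nat.prime_dvd_prime_iff_eq hp Nat.prime_two).1 this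
      exact hp2 h3
    have e4 : IsSquare (2 : ZMod p) := by
      refine ⟨(z.1 : ZMod p) / (2 * z.2), ?_⟩
      field_simp
      linear_combination -e2
    have e5 := (ZMod.exists_sq_eq_two_iff hp2).1 e4
    omega
  refine ⟨?_, h2⟩
  have h3 : (p : ℤ) ∣ z.1 ^ 2 := by
    have h4 : z.1 ^ 2 = N8 z + 8 * z.2 ^ 2 := by unfold N8; ring
    rw [h4]
    exact dvd_add h (dvd_mul_of_dvd_right (dvd_pow h2 two_ne_zero) _)
  exact hpi.dvd_of_dvd_pow h3

theorem RIN (hMUL : MUL_stmt) (hSIZ : SIZ_stmt) : RIN_stmt := by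
  classical
  intro d Ψ hU
  obtain ⟨hU1, hU2, hU3, hU4, hU5⟩ := hU
  refine ⟨?_, ?_⟩
  · have h1 : (FF 1).filter (fun z => nn z = 1) = {((1 : ℤ), (0 : ℤ))} := by
      apply Finset.eq_singleton_iff_unique_mem.2
      refine ⟨?_, ?_⟩
      · have h2 : Fd ((1 : ℤ), (0 : ℤ)) := by unfold Fd; simp
        have h3 : nn ((1 : ℤ), (0 : ℤ)) = 1 := by unfold nn N8; simp
        have h4 := (hSIZ _ h2).2.2.2.1
        rw [h3] at h4
        exact Finset.mem_filter.2 ⟨h4, h3⟩
      · rintro ⟨a, b⟩ hz
        obtain ⟨hz1, hz2⟩ := Finset.mem_filter.1 hz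
        obtain ⟨hz3, -⟩ := RIN_mem hz1
        obtain ⟨h4, h5, -, -, h8⟩ := hSIZ _ hz3
        rw [hz2] at h4 h5 h8
        have h9 : N8 (a, b) = 1 := by
          rcases h8 with h8 | h8
          · exact_mod_cast h8.1
          · omega
        simp only [Nat.cast_one] at h4 h5
        unfold Fd at hz3
        simp only at hz3
        have ha : a ≤ 1 := by nlinarith
        have ha' : -1 ≤ a := by nlinarith
        have hb : b ≤ 1 := by nlinarith
        have hb' : -1 ≤ b := by nlinarith
        unfold N8 at h9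
        simp only at h9
        interval_cases a <;> interval_cases b <;> simp_all
    unfold rf
    rw [h1, Finset.sum_singleton]
    apply hU2
    unfold N8
    simp
  · intro p m hp hm
    refine ⟨?_, ?_⟩
    · intro h
      unfold rf
      apply Finset.sum_eq_zero
      intro z hz
      obtain ⟨hz1, hz2⟩ := Finset.mem_filter.1 hz
      obtain ⟨hz3, -⟩ := RIN_mem hz1
      rcases h with h | h
      · exfalso
        obtain ⟨-, -, -, -, h8⟩ := hSIZ _ hz3
        rw [hz2, h] at h8
        omega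
      · apply hU3 z hz3.1
        intro hc
        rw [hz2] at hc
        have : p ∣ 1 := by
          rw [← hc]
          exact Nat.dvd_gcd (Dvd.intro _ rfl) h
        exact hp.one_lt.ne' (Nat.dvd_one.1 this)
    · intro h8 hpd
      have hpo : (p : ℤ) % 2 = 1 := by omega
      have hkey : ∀ z : ℤ × ℤ, nn z = p * m → ((p : ℤ) ∣ z.1 ∧ (p : ℤ) ∣ z.2) := by
        intro z hz
        apply RIN_div p hp h8
        rw [Int.natCast_dvd]
        exact ⟨m, hz⟩
      have hpm : ∀ z : ℤ × ℤ, nn z = p * m → p ∣ m := by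
        intro z hz
        obtain ⟨⟨a, ha⟩, ⟨b, hb⟩⟩ := hkey z hz
        have h1 : N8 z = p * (p * N8 (a, b)) := by
          unfold N8
          rw [ha, hb]
          ring
        have h2 : nn z = p * (p * nn (a, b)) := by
          unfold nn
          rw [h1, Int.natAbs_mul, Int.natAbs_mul, Int.natAbs_natCast]
        rw [hz] at h2
        exact ⟨_, Nat.eq_of_mul_eq_mul_left hp.pos h2⟩
      by_cases hd : p ∣ m
      · rw [if_pos hd]
        obtain ⟨k, rfl⟩ := hd
        have hk : 1 ≤ k := by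
          rcases Nat.eq_zero_or_pos k with h | h
          · subst h; simp at hm
          · exact h
        rw [Nat.mul_div_cancel_left _ hp.pos]
        have h1 := hMUL d Ψ ⟨hU1, hU2, hU3, hU4, hU5⟩ ((p : ℤ), 0) hpo k hk
        have h2 : nn ((p : ℤ), 0) = p * p := by
          unfold nn N8
          simp only [ne_eq, OfNat.ofNat_ne_zero, not_false_eq_true, zero_pow, mul_zero, sub_zero,
            Int.natAbs_pow, Int.natAbs_natCast]
          ring
        have h3 : Ψ ((p : ℤ), 0) = 1 := by
          apply hU5 _ hpo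
          rw [Int.isCoprime_iff_gcd_eq_one, Int.gcd_natCast_natCast]
          exact (Nat.Prime.coprime_iff_not_dvd hp).2 hpd
        rw [h2, h3, one_mul] at h1
        rw [← h1]
        unfold rf
        have h4 : k * (p * p) = p * (p * k) := by ring
        rw [h4]
        apply Finset.sum_congr _ fun _ _ => rfl
        ext z
        simp only [Finset.mem_filter]
        constructor
        · rintro ⟨hz1, hz2⟩
          refine ⟨hz1, hz2, ?_⟩
          obtain ⟨⟨a, ha⟩, ⟨b, hb⟩⟩ := hkey z hz2
          refine ⟨(a, b), ?_⟩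
          unfold mul8
          ext
          · simp [ha]
          · simp [hb]
        · rintro ⟨hz1, hz2, -⟩
          exact ⟨hz1, hz2⟩
      · rw [if_neg hd]
        unfold rf
        apply Finset.sum_eq_zero
        intro z hz
        exact absurd (hpm z (Finset.mem_filter.1 hz).2) hd

end Pool.Agent.HK
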